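import Pool.Agent.N869.GK.L.Stm

/-! GK-INVA (helper55, project GK of helper869). -/

set_option autoImplicit false

open scoped Classical

namespace Pool.Agent.N55.GK

open Finset Filter Topology
open Pool.Agent.N869.GK

lemma near_prod {I : Type} [Fintype I] (y : I → ℝ) (ε : ℝ) (hε : 0 < ε) :
    ∀ᶠ δ in 𝓝[>] (0 : ℝ), ∀ x : I → ℝ, (∀ a, |x a - y a| ≤ δ) → |∏ a, x a - ∏ a, y a| ≤ ε := by
  have hc : Continuous (fun x : I → ℝ => ∏ a, x a) := by fun_prop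
  obtain ⟨δ₁, h1, h2⟩ := Metric.continuousAt_iff.1 (hc.continuousAt (x := y)) ε hε
  have : ∀ᶠ δ in 𝓝[>] (0 : ℝ), δ ∈ Set.Ioo (0 : ℝ) δ₁ := Ioo_mem_nhdsGT h1
  filter_upwards [this] with δ hδ x hx
  have hd : dist x y < δ₁ := by
    refine lt_of_le_of_lt ((dist_pi_le_iff hδ.1.le).2 fun a => ?_) hδ.2
    rw [Real.dist_eq]; exact hx a
  have := h2 hd
  rw [Real.dist_eq] at this
  exact this.le

theorem t_INVA : S_INVA := by
  intro hU hR I _ e ρ hρ ε hε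
  obtain ⟨m₀, δ, hδ, H⟩ := hU I e ρ (ε / 2) (half_pos hε)
  have h1 : ∀ᶠ δ₀ in 𝓝[>] (0 : ℝ), ∀ m : I → Fin (m₀ + 1), ∀ x : I → ℝ,
      (∀ a, |x a - mom (m a)| ≤ δ₀) → |∏ a, x a - ∏ a, mom (m a)| ≤ δ := by
    rw [Filter.eventually_all]
    intro m
    exact near_prod (fun a => mom (m a)) δ hδ
  have h2 := near_prod (fun _ : I => kap ρ) (ε / 2) (half_pos hε)
  have h3 : ∀ᶠ δ₀ in 𝓝[>] (0 : ℝ), 0 < δ₀ := eventually_mem_nhdsWithin
  obtain ⟨δ₀, h1, h2, h3⟩ := (h1.and (h2.and h3)).exists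
  obtain ⟨Ω₀, i1, i2, k₀, hk, hm, hp⟩ := hR e ρ hρ m₀ δ₀ h3
  refine ⟨m₀, δ, hδ, ?_⟩
  intro Ω _ _ k hkp hmom
  have key := H Ω (I → Ω₀) k (fun w a => k₀ (w a)) hkp (fun w a => hk (w a)) hmom ?_
  · have e1 : (((univ.filter fun ω : I → Ω₀ => ∀ a, k₀ (ω a) = ρ).card : ℝ) /
        Fintype.card (I → Ω₀)) =
        ∏ _a : I, (((univ.filter fun ω : Ω₀ => k₀ ω = ρ).card : ℝ) / Fintype.card Ω₀) := by
      have : (univ.filter fun ω : I → Ω₀ => ∀ a, k₀ (ω a) = ρ) =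
          Fintype.piFinset (fun _ : I => univ.filter fun ω : Ω₀ => k₀ ω = ρ) := by
        ext w; simp [Fintype.mem_piFinset]
      rw [this, Fintype.card_piFinset, Fintype.card_pi, Finset.prod_div_distrib]
      push_cast
      rfl
    have e2 := h2 (fun _ => ((univ.filter fun ω : Ω₀ => k₀ ω = ρ).card : ℝ) / Fintype.card Ω₀)
      (fun _ => hp)
    rw [← e1] at e2
    have e3 : (∏ _a : I, kap ρ) = kap ρ ^ Fintype.card I := by
      rw [Finset.prod_const, Finset.card_univ]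
    rw [e3] at e2
    have := abs_sub_le (((univ.filter fun ω : Ω => ∀ a, k ω a = ρ).card : ℝ) / Fintype.card Ω)
      (((univ.filter fun ω : I → Ω₀ => ∀ a, k₀ (ω a) = ρ).card : ℝ) / Fintype.card (I → Ω₀))
      (kap ρ ^ Fintype.card I)
    linarith
  · intro m hmm
    have e1 : (∑ ω : I → Ω₀, ∏ a, (2 : ℝ) ^ (m a * k₀ (ω a))) / Fintype.card (I → Ω₀) =
        ∏ a, ((∑ ω, (2 : ℝ) ^ (m a * k₀ ω)) / Fintype.card Ω₀) := by
      rw [Finset.prod_div_distrib, Fintype.card_pi]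
      congr 1
      · rw [Finset.prod_univ_sum, Fintype.piFinset_univ]
      · push_cast; rfl
    rw [e1]
    have := h1 (fun a => ⟨m a, Nat.lt_succ_of_le (hmm a)⟩)
      (fun a => (∑ ω, (2 : ℝ) ^ (m a * k₀ ω)) / Fintype.card Ω₀) (fun a => hm (m a) (hmm a))
    exact this

end Pool.Agent.N55.GK
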